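import Pool.Agent.H.MP_28d887_lc.Red

set_option autoImplicit false

namespace Pool.Agent.Results.MP_28d887_lc.Full

open Pool.Agent.Lib.CX Pool.Agent.H.MP_28d887_lc

/-- An agent: its first and its second preference list, best first. -/
abbrev Ag := List ℕ × List ℕ

/-- The agent ranks the pair `p` strictly above the pair `q`, lexicographically. -/
def Pref (a : Ag) (p q : ℕ × ℕ) : Prop :=
  a.1.idxOf p.1 < a.1.idxOf q.1 ∨ (p.1 = q.1 ∧ a.2.idxOf p.2 < a.2.idxOf q.2)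

/-- Men, women and dogs: `n ≥ 3` of each, every list is an ordering of `0, …, n - 1`. -/
def Valid (I : List Ag × List Ag × List Ag) : Prop :=
  3 ≤ I.1.length ∧ I.2.1.length = I.1.length ∧ I.2.2.length = I.1.length ∧
    ∀ a ∈ I.1 ++ I.2.1 ++ I.2.2, a.1.Perm (List.range I.1.length) ∧ a.2.Perm (List.range I.1.length)

/-- Some matching `{(i, σ i, τ i)}` is blocked by no triple `(i, σ j, τ k)`. -/
def HasStable (U W D : List Ag) : Prop :=
  ∃ σ τ : Equiv.Perm (Fin U.length), ∀ i j k : Fin U.length,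
    ¬ (Pref (U.getD i ([], [])) (σ j, τ k) (σ i, τ i) ∧
      Pref (W.getD (σ j) ([], [])) (τ k, i) (τ j, j) ∧
      Pref (D.getD (τ k) ([], [])) (i, σ j) (k, σ k))

def mk (n : ℕ) (f : ℕ → ℕ) : List ℕ :=
  (List.range (n + 4)).flatMap fun s => (List.range n).filter fun b => f b = s

lemma mk_spec {n : ℕ} {f : ℕ → ℕ} (h1 : ∀ b < n, f b < n + 4) (h2 : ∀ b c, f b = f c → b = c) :
    (mk n f).Perm (List.range n) ∧
      ∀ x < n, ∀ y < n, (mk n f).idxOf x < (mk n f).idxOf y ↔ f x < f y := by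
  have hm : ∀ b, b ∈ mk n f ↔ b < n := fun b => by simpa [mk, and_comm] using h1 b
  have hp : (mk n f).Pairwise fun a b => f a < f b := by
    refine List.pairwise_flatMap.2 ⟨fun s _ => (List.nodup_range.filter _).imp_of_mem ?_,
      List.pairwise_lt_range.imp ?_⟩
    · simp only [List.mem_filter, decide_eq_true_eq]
      exact fun a b c => absurd (h2 _ _ (a.2.trans b.2.symm)) c
    · simp only [List.mem_filter, decide_eq_true_eq]
      exact fun a _ b _ c => by omega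
  refine ⟨(List.perm_ext_iff_of_nodup (hp.imp fun h e => by simp [e] at h) List.nodup_range).2
    fun b => by simp [hm], fun x hx y hy => ?_⟩
  have a := List.idxOf_lt_length_of_mem ((hm x).2 hx)
  have b := List.idxOf_lt_length_of_mem ((hm y).2 hy)
  have c := List.pairwise_iff_getElem.1 hp _ _ a b
  have d := List.pairwise_iff_getElem.1 hp _ _ b a
  have e : (mk n f).idxOf x = (mk n f).idxOf y → x = y := (List.idxOf_inj ((hm x).2 hx)).1
  simp only [List.getElem_idxOf] at c d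
  refine ⟨c, fun h => by_contra fun h3 => ?_⟩
  rcases (not_lt.1 h3).eq_or_lt with h4 | h4
  · simp [e h4.symm] at h
  · exact h.asymm (d h4)

def ags (n : ℕ) (ty : ℕ → ℕ) (fv : ℕ → ℕ → ℕ) (g : ℕ) : List Ag :=
  (List.range n).map fun a => (mk n (s1 ty fv g a), mk n (s2 ty g a))

section
variable {n : ℕ} {ty : ℕ → ℕ} {fv : ℕ → ℕ → ℕ}

lemma pref_iff (ht : ∀ c, ty c < 3) (g : ℕ) (a y z u v : Fin n) :
    Pref ((ags n ty fv g).getD a ([], [])) (y, z) (u, v) ↔ Q ty fv g a y z u v := by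
  simp only [ags, List.getD_eq_getElem?_getD, List.getElem?_map, List.getElem?_range a.2,
    Option.map_some, Option.getD_some, Pref, Q,
    (mk_spec (fun _ => s1_lt) fun _ _ => s1_inj ht).2 _ y.2 _ u.2,
    (mk_spec (fun _ => s2_lt) fun _ _ => s2_inj ht).2 _ z.2 _ v.2]

lemma tr (ht : ∀ c, ty c < 3) :
    HasStable (ags n ty fv 0) (ags n ty fv 1) (ags n ty fv 2) ↔ ∃ P, Good ty fv n P := by
  have : ∀ m, m = n → ((∃ σ τ : Equiv.Perm (Fin m), ∀ i j k : Fin m,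
      ¬ (Pref ((ags n ty fv 0).getD i ([], [])) (σ j, τ k) (σ i, τ i) ∧
      Pref ((ags n ty fv 1).getD (σ j) ([], [])) (τ k, i) (τ j, j) ∧
      Pref ((ags n ty fv 2).getD (τ k) ([], [])) (i, σ j) (k, σ k))) ↔ ∃ P, Good ty fv n P) := by
    rintro _ rfl
    simp only [pref_iff ht]
    constructor
    · rintro ⟨σ, τ, h⟩
      obtain ⟨R, r0, r1, r2, r3⟩ : ∃ R : ℕ → Equiv.Perm (Fin _), R 0 = σ ∧ R 1 = τ * σ⁻¹ ∧ R 2 = τ⁻¹ ∧
          ∀ g, R g = R (g % 3) :=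
        ⟨fun g => if g % 3 = 0 then σ else if g % 3 = 1 then τ * σ⁻¹ else τ⁻¹, rfl, rfl, rfl, by simp⟩
      refine ⟨fun g x => if h : x < _ then R g ⟨x, h⟩ else 0, fun g x hx => by simp [hx],
        fun g x hx => ?_, fun g => by beta_reduce; rw [r3, Nat.add_mod_right, ← r3], fun x hx y hy z hz => ?_⟩
      · simp only [hx, dif_pos, Fin.is_lt, Fin.eta]
        rw [r3 g, r3 (g + 1), r3 (g + 2)]
        obtain e | e | e : g % 3 = 0 ∨ g % 3 = 1 ∨ g % 3 = 2 := by omega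
        all_goals simp [Nat.add_mod, e, r0, r1, r2]
      · simpa [hx, hy, hz, r0, r1, r2] using h ⟨x, hx⟩ (σ⁻¹ ⟨y, hy⟩) (τ⁻¹ ⟨z, hz⟩)
    · rintro ⟨P, h1, h2, h3, h4⟩
      refine ⟨.ofBijective (fun x => ⟨P 0 x, h1 _ _ x.2⟩) (Finite.injective_iff_bijective.1 fun x y e => ?_),
        .ofBijective (fun x => ⟨P 1 (P 0 x), h1 _ _ (h1 _ _ x.2)⟩)
          (Finite.injective_iff_bijective.1 fun x y e => ?_), fun i j k => ?_⟩
      · exact Fin.ext (by rw [← h2 0 _ x.2, ← h2 0 _ y.2, Fin.mk.inj e])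
      · exact Fin.ext (by rw [← h2 0 _ x.2, ← h2 0 _ y.2, Fin.mk.inj e])
      · have := h4 i i.2 _ (h1 0 _ j.2) _ (h1 1 _ (h1 0 _ k.2))
        rwa [h2 0 _ j.2, h2 0 _ k.2] at this
  exact this _ (by simp [ags])

lemma valid (ht : ∀ c, ty c < 3) (hn : 3 ≤ n) : Valid (ags n ty fv 0, ags n ty fv 1, ags n ty fv 2) := by
  have : ∀ g, (ags n ty fv g).length = n := by simp [ags]
  simp only [Valid, this, hn, true_and, List.forall_mem_append]
  have : ∀ g, ∀ a ∈ ags n ty fv g, a.1.Perm (List.range n) ∧ a.2.Perm (List.range n) := fun g =>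
    List.forall_mem_map.2 fun _ _ => ⟨(mk_spec (fun _ => s1_lt) fun _ _ => s1_inj ht).1,
      (mk_spec (fun _ => s2_lt) fun _ _ => s2_inj ht).1⟩
  exact ⟨⟨this 0, this 1⟩, this 2⟩

end

def sz (φ : F) : ℕ := 3 * (2 * (3 * φ.length * (6 * φ.length)))
def pad (φ : F) : F := ((0, true), (0, false), (0, true)) :: φ
def red (φ : F) : List Ag × List Ag × List Ag :=
  (ags (sz φ) (ty φ) (fv φ) 0, ags (sz φ) (ty φ) (fv φ) 1, ags (sz φ) (ty φ) (fv φ) 2)

lemma red_pt : PT red := by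
  have h1 : PT fun p : F × ℕ => ty p.1 p.2 := by unfold ty; fun_prop
  have h2 : PT fun p : F × ℕ => lit p.1 p.2 := by unfold lit; fun_prop
  have h3 : PT fun p : F × ℕ => nd p.1 p.2 := by unfold nd; fun_prop
  have h4 : PT fun p : F × ℕ × ℕ => fv p.1 p.2.1 p.2.2 := by unfold fv nx; fun_prop
  have h5 : ∀ T : ℕ, PT fun p : ℕ × ℕ × ℕ × ℕ =>
      T / 4 ^ min 108 (36 * p.1 + 12 * p.2.1 + 4 * p.2.2.1 + p.2.2.2) % 4 := fun T => by fun_prop
  have h6 : PT fun p : ℕ × ℕ × ℕ × ℕ => T1 p.1 p.2.1 p.2.2.1 p.2.2.2 := h5 _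
  have h7 : PT fun p : ℕ × ℕ × ℕ × ℕ => T2 p.1 p.2.1 p.2.2.1 p.2.2.2 := h5 _
  have h8 : PT fun p : F × ℕ × ℕ × ℕ => s1 (ty p.1) (fv p.1) p.2.1 p.2.2.1 p.2.2.2 := by
    unfold s1 rel; fun_prop
  have h9 : PT fun p : F × ℕ × ℕ × ℕ => s2 (ty p.1) p.2.1 p.2.2.1 p.2.2.2 := by
    unfold s2 rel; fun_prop
  have h : ∀ S1 S2 : F → ℕ → ℕ → ℕ → ℕ, (PT fun p : F × ℕ × ℕ × ℕ => S1 p.1 p.2.1 p.2.2.1 p.2.2.2) →
      (PT fun p : F × ℕ × ℕ × ℕ => S2 p.1 p.2.1 p.2.2.1 p.2.2.2) → ∀ g, PT fun φ =>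
      (List.range (sz φ)).map fun a => (mk (sz φ) (S1 φ g a), mk (sz φ) (S2 φ g a)) := fun S1 S2 _ _ g => by
    unfold mk sz
    fun_prop
  exact (h _ _ h8 h9 0).pair ((h _ _ h8 h9 1).pair (h _ _ h8 h9 2))

lemma hard : NPHard fun a : {a // Valid a} => HasStable a.1.1 a.1.2.1 a.1.2.2 := by
  refine NPHard.of_sat3 (fun φ => ⟨red (pad φ), valid ty_lt (by simp [sz, pad]; nlinarith)⟩)
    (PT.subtype (red_pt.comp (by unfold pad; fun_prop)) _) fun φ hv => ?_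
  have e : Sat3 φ ↔ Sat3 (pad φ) := exists_congr fun v => by
    simp [pad, Cl3.ok]
  refine e.trans (.trans ⟨fun h => good_of (by simp [pad]) h _, fun ⟨P, h⟩ => of_good ?_ h⟩ (tr ty_lt).symm)
  simp only [pad, List.forall_mem_cons, List.length_cons]
  exact ⟨by simp [Cl3.vars], fun C h1 x h2 => by have := hv C h1 x h2; omega⟩

instance (a : Ag) (p q : ℕ × ℕ) : Decidable (Pref a p q) := by unfold Pref; infer_instance

set_option synthInstance.maxSize 4000 in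
lemma np : InNP fun a : List Ag × List Ag × List Ag => HasStable a.1 a.2.1 a.2.2 := by
  refine InNP.of_cert' (fun a (c : List ℕ × List ℕ) =>
    (∀ i < a.1.length, c.1.getD i 0 < a.1.length ∧ c.2.getD i 0 < a.1.length) ∧
    (∀ i < a.1.length, ∀ j < a.1.length, (c.1.getD i 0 = c.1.getD j 0 ∨ c.2.getD i 0 = c.2.getD j 0) → i = j) ∧
    ∀ i < a.1.length, ∀ j < a.1.length, ∀ k < a.1.length,
      ¬ (Pref (a.1.getD i ([], [])) (c.1.getD j 0, c.2.getD k 0) (c.1.getD i 0, c.2.getD i 0) ∧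
      Pref (a.2.1.getD (c.1.getD j 0) ([], [])) (c.2.getD k 0, i) (c.2.getD j 0, j) ∧
      Pref (a.2.2.getD (c.2.getD k 0) ([], [])) (i, c.1.getD j 0) (k, c.1.getD k 0)))
    (fun a => 2 * (a.1.length * (size a.1.length + 1) + 2) + 1) (by unfold Pref; fun_prop) (by fun_prop) ?_ ?_
  · rintro ⟨U, W, D⟩ ⟨s, t⟩ ⟨h1, h2, h3⟩
    exact ⟨.ofBijective (fun x => ⟨s.getD x 0, (h1 _ x.2).1⟩) (Finite.injective_iff_bijective.1
        fun x y e => Fin.ext (h2 _ x.2 _ y.2 (.inl (Fin.mk.inj e)))),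
      .ofBijective (fun x => ⟨t.getD x 0, (h1 _ x.2).2⟩) (Finite.injective_iff_bijective.1
        fun x y e => Fin.ext (h2 _ x.2 _ y.2 (.inr (Fin.mk.inj e)))), fun i j k => h3 _ i.2 _ j.2 _ k.2⟩
  · rintro ⟨U, W, D⟩ ⟨σ, τ, h⟩
    have gd : ∀ (σ : Equiv.Perm (Fin U.length)) i (hi : i < U.length),
        (List.ofFn fun x => (σ x : ℕ)).getD i 0 = σ ⟨i, hi⟩ := fun σ i hi => by simp [hi]
    have sb : ∀ σ : Equiv.Perm (Fin U.length),
        size (List.ofFn fun x => (σ x : ℕ)) ≤ U.length * (size U.length + 1) + 2 := fun σ =>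
      (size_list_le (B := size U.length) (List.forall_mem_ofFn_iff.2 fun i =>
        size_nat_mono (σ i).2.le)).trans (by simp)
    refine ⟨(List.ofFn fun x => (σ x : ℕ), List.ofFn fun x => (τ x : ℕ)), ?_, fun i hi => ?_,
      fun i hi j hj => ?_, fun i hi j hj k hk => ?_⟩
    · have := sb σ
      have := sb τ
      rw [size_pair]
      dsimp only
      omega
    · simp only [gd _ _ hi, Fin.is_lt, and_self]
    · simp only [gd _ _ hi, gd _ _ hj]
      simp [Fin.val_inj]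
    · simp only [gd _ _ hi, gd _ _ hj, gd _ _ hk]
      exact h ⟨i, hi⟩ ⟨j, hj⟩ ⟨k, hk⟩

theorem result : NPComplete fun a : {a // Valid a} => HasStable a.1.1 a.1.2.1 a.1.2.2 :=
  ⟨np.red ⟨Subtype.val, PT.id.cast fun _ => rfl, fun _ => Iff.rfl⟩, hard⟩

end Pool.Agent.Results.MP_28d887_lc.Full
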